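import Pool.Agent.Lib.MP_1b70d9_co.TT

set_option autoImplicit false
set_option maxHeartbeats 4000000

namespace Pool.Agent.MP_1b70d9_co

open SimpleGraph

universe u

variable {V : Type u} {H H' : SimpleGraph V}

lemma seq_walk {G : SimpleGraph V} {c : ℕ → V} {i j : ℕ} (hij : i ≤ j)
    (h : ∀ m, i ≤ m → m < j → G.Adj (c m) (c (m + 1))) :
    ∃ p : G.Walk (c i) (c j), p.length = j - i := by
  obtain ⟨k, rfl⟩ : ∃ k, j = i + k := ⟨j - i, by omega⟩
  obtain ⟨q, hq, _⟩ := exists_walk (G := G) k (fun k => c (i + k))
    (fun k hk => h (i + k) (by omega) (by omega))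
  exact ⟨q, by rw [hq]; omega⟩

lemma add_core {x y : V} (hH' : ∀ a b, H'.Adj a b ↔ H.Adj a b ∧ a ≠ x ∧ b ≠ x)
    (hB : Br H') (h4 : Ch4 H) (h5 : Ch5 H) (hxy : H.Adj x y)
    (hdom : ∀ u, H.Adj x u → u = y ∨ H.Adj u y) {N : ℕ} {c : ℕ → V} (hN : 4 ≤ N)
    (hc : SCyc H N c) (hx : c 0 = x)
    (hlow : ∀ i j, i ≤ j → j < N → min (j - i) (N - (j - i)) ≤ H.dist (c i) (c j)) : False := by
  have hQ : ∀ n, Qn H' n := fun n => (QT hB n).1
  have hT : ∀ n, Tn H' n := fun n => (QT hB n).2
  have hle : H' ≤ H := by
    intro a b hab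
    exact ((hH' a b).1 hab).1
  have hanti : ∀ {a b : V}, H'.Reachable a b → H.dist a b ≤ H'.dist a b :=
    fun hr => Reachable.dist_anti hle hr
  have hcx : ∀ i, 1 ≤ i → i < N → c i ≠ x := by
    intro i h1 h2 h3
    rw [← hx] at h3
    have := hc.inj i 0 h2 (by omega) h3
    omega
  have hwalk : ∀ i j, 1 ≤ i → i ≤ j → j < N →
      ∃ p : H'.Walk (c i) (c j), p.length = j - i := by
    intro i j h1 h2 h3
    refine seq_walk h2 ?_
    intro m hm1 hm2
    exact (hH' _ _).2 ⟨hc.adj m (by omega), hcx m (by omega) (by omega),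
      hcx (m + 1) (by omega) (by omega)⟩
  have hyx : y ≠ x := hxy.ne'
  have hx1 : H.Adj x (c 1) := by
    have := hc.adj 0 (by omega)
    rwa [hx] at this
  have hxN : H.Adj x (c (N - 1)) := by
    have := hc.close
    rw [hx] at this
    exact this.symm
  have hne1 : c 1 ≠ c (N - 1) := by
    intro h
    have := hc.inj 1 (N - 1) (by omega) (by omega) h
    omega
  have hna1 : ¬ H.Adj (c 1) (c (N - 1)) := by
    intro h
    have h1 := hlow 1 (N - 1) (by omega) (by omega)
    rw [dist_eq_one_iff_adj.2 h] at h1
    rw [min_le_iff] at h1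
    omega
  have hy1 : H.Adj (c 1) y := by
    rcases hdom (c 1) hx1 with h | h
    · exfalso
      rcases hdom (c (N - 1)) hxN with h' | h'
      · exact hne1 (h.trans h'.symm)
      · rw [← h] at h'
        exact hna1 h'.symm
    · exact h
  have hyN : H.Adj (c (N - 1)) y := by
    rcases hdom (c (N - 1)) hxN with h | h
    · exfalso
      rw [← h] at hy1
      exact hna1 hy1
    · exact h
  have hy1' : H'.Adj (c 1) y := (hH' _ _).2 ⟨hy1, hcx 1 (le_refl _) (by omega), hyx⟩
  have hyN' : H'.Adj (c (N - 1)) y := (hH' _ _).2 ⟨hyN, hcx (N - 1) (by omega) (by omega), hyx⟩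
  obtain ⟨k, hk⟩ : ∃ k, N = 2 * k ∨ N = 2 * k + 1 := ⟨N / 2, by omega⟩
  have hk2 : 2 ≤ k := by omega
  have ra1 : H'.Reachable (c k) (c 1) := by
    obtain ⟨p, _⟩ := hwalk 1 k (le_refl _) (by omega) (by omega)
    exact p.reachable.symm
  have rax : H.Reachable (c k) x := by
    have := (ra1.mono hle).trans hx1.symm.reachable
    exact this
  have hdx : k ≤ H.dist (c k) x := by
    have := hlow 0 k (by omega) (by omega)
    rw [hx, dist_comm] at this
    rw [min_le_iff] at this
    omega
  have ha1 : H'.dist (c k) (c 1) = k - 1 := by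
    obtain ⟨p, hp⟩ := hwalk 1 k (le_refl _) (by omega) (by omega)
    have e1 := dist_le p
    have e2 := hanti ra1
    have e3 := hlow 1 k (by omega) (by omega)
    rw [min_le_iff] at e3
    rw [dist_comm (G := H) (u := c k)] at e2
    rw [dist_comm (G := H') (u := c 1)] at e1
    omega
  have ray : H'.Reachable (c k) y := ra1.trans hy1'.reachable
  have hay1 := adj_le (b := c k) hy1'
  have hay2 : k ≤ H'.dist (c k) y + 1 := by
    have e1 := adj_le (b := c k) hxy.symm
    have e2 := hanti ray
    omega
  have hfar : ∀ t, H'.Reachable (c k) t → H'.dist (c k) t + 2 ≤ k → ¬ H.Adj x t ∧ x ≠ t := by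
    intro t ht1 ht2
    have e2 := hanti ht1
    constructor
    · intro h
      have e1 := adj_le (b := c k) h.symm
      omega
    · intro h
      rw [← h] at e2 ht2
      omega
  have four : ∀ t, H'.Reachable (c k) t → H'.dist (c k) t + 2 ≤ k → H.Adj (c 1) t →
      H.Adj (c (N - 1)) t → False := by
    intro t ht1 ht2 h1 h2
    obtain ⟨e1, e2⟩ := hfar t ht1 ht2
    rcases h4 x (c 1) t (c (N - 1)) hx1 h1 h2.symm hxN.symm e2 hne1 with h | h
    · exact e1 h
    · exact hna1 h
  rcases hk with hk | hk
  · -- even case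
    have raN : H'.Reachable (c k) (c (N - 1)) := by
      obtain ⟨p, _⟩ := hwalk k (N - 1) (by omega) (by omega) (by omega)
      exact p.reachable
    have haN : H'.dist (c k) (c (N - 1)) = k - 1 := by
      obtain ⟨p, hp⟩ := hwalk k (N - 1) (by omega) (by omega) (by omega)
      have e1 := dist_le p
      have e2 := hanti raN
      have e3 := hlow k (N - 1) (by omega) (by omega)
      rw [min_le_iff] at e3
      omega
    have hD : H'.dist (c k) y = k ∨ H'.dist (c k) y = k - 1 := by omega
    rcases hD with hD | hD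
    · rcases hQ (k - 1) (c k) y (c 1) (c (N - 1)) (by omega) hy1'.symm hyN'.symm ha1 haN with h | h
      · exact hne1 h
      · exact hna1 (hle h)
    · obtain ⟨w, hw1, hw2, hw3⟩ := hT (k - 2) (c k) (c 1) y (by omega) (by omega) hy1'
      obtain ⟨w', hw1', hw2', hw3'⟩ := hT (k - 2) (c k) (c (N - 1)) y (by omega) (by omega) hyN'
      have rw1 : H'.Reachable (c k) w := ra1.trans hw1.reachable
      have rw1' : H'.Reachable (c k) w' := raN.trans hw1'.reachable
      obtain ⟨f1, f2⟩ := hfar w rw1 (by omega)
      obtain ⟨f1', f2'⟩ := hfar w' rw1' (by omega)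
      rcases hQ (k - 2) (c k) y w w' (by omega) hw2 hw2' hw3 hw3' with h | h
      · subst h
        exact four w rw1 (by omega) (hle hw1) (hle hw1')
      · have n1 : c 1 ≠ w' := by
          intro e
          rw [← e] at hw3'
          omega
        have n2 : w ≠ c (N - 1) := by
          intro e
          rw [e] at hw3
          omega
        rcases h5 x (c 1) w w' (c (N - 1)) hx1 (hle hw1) (hle h) (hle hw1').symm hxN.symm
          f2 f2' n1 hne1 n2 with g | g | g | g | g
        · exact f1 g
        · exact f1' g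
        · exact four w' rw1' (by omega) g (hle hw1')
        · exact hna1 g
        · exact four w rw1 (by omega) (hle hw1) g.symm
  · -- odd case
    by_cases hk3 : k = 2
    · -- N = 5
      subst hk3
      have hN5 : N = 5 := by omega
      subst hN5
      have nadj : ∀ i j, i ≤ j → j < 5 → 2 ≤ j - i → 2 ≤ 5 - (j - i) → c i ≠ c j ∧ ¬ H.Adj (c i) (c j) := by
        intro i j h1 h2 h3 h4'
        constructor
        · intro e
          have := hc.inj i j (by omega) h2 e
          omega
        · intro e
          have := hlow i j h1 h2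
          rw [dist_eq_one_iff_adj.2 e, min_le_iff] at this
          omega
      have cl := hc.close
      simp only [show 5 - 1 = 4 by rfl] at cl
      rcases h5 (c 0) (c 1) (c 2) (c 3) (c 4) (hc.adj 0 (by omega)) (hc.adj 1 (by omega))
        (hc.adj 2 (by omega)) (hc.adj 3 (by omega)) cl
        (nadj 0 2 (by omega) (by omega) (by omega) (by omega)).1
        (nadj 0 3 (by omega) (by omega) (by omega) (by omega)).1
        (nadj 1 3 (by omega) (by omega) (by omega) (by omega)).1
        (nadj 1 4 (by omega) (by omega) (by omega) (by omega)).1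
        (nadj 2 4 (by omega) (by omega) (by omega) (by omega)).1 with g | g | g | g | g
      · exact (nadj 0 2 (by omega) (by omega) (by omega) (by omega)).2 g
      · exact (nadj 0 3 (by omega) (by omega) (by omega) (by omega)).2 g
      · exact (nadj 1 3 (by omega) (by omega) (by omega) (by omega)).2 g
      · exact (nadj 1 4 (by omega) (by omega) (by omega) (by omega)).2 g
      · exact (nadj 2 4 (by omega) (by omega) (by omega) (by omega)).2 g
    have raN : H'.Reachable (c k) (c (N - 1)) := by
      obtain ⟨p, _⟩ := hwalk k (N - 1) (by omega) (by omega) (by omega)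
      exact p.reachable
    have raM : H'.Reachable (c k) (c (N - 2)) := by
      obtain ⟨p, _⟩ := hwalk k (N - 2) (by omega) (by omega) (by omega)
      exact p.reachable
    have haN : H'.dist (c k) (c (N - 1)) = k := by
      obtain ⟨p, hp⟩ := hwalk k (N - 1) (by omega) (by omega) (by omega)
      have e1 := dist_le p
      have e2 := hanti raN
      have e3 := hlow k (N - 1) (by omega) (by omega)
      rw [min_le_iff] at e3
      omega
    have haM : H'.dist (c k) (c (N - 2)) = k - 1 := by
      obtain ⟨p, hp⟩ := hwalk k (N - 2) (by omega) (by omega) (by omega)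
      have e1 := dist_le p
      have e2 := hanti raM
      have e3 := hlow k (N - 2) (by omega) (by omega)
      rw [min_le_iff] at e3
      omega
    have hMN : H'.Adj (c (N - 1)) (c (N - 2)) := by
      have := hc.adj (N - 2) (by omega)
      rw [show N - 2 + 1 = N - 1 by omega] at this
      exact (hH' _ _).2 ⟨this.symm, hcx (N - 1) (by omega) (by omega),
        hcx (N - 2) (by omega) (by omega)⟩
    have h1M : 3 ≤ H.dist (c 1) (c (N - 2)) := by
      have e3 := hlow 1 (N - 2) (by omega) (by omega)
      rw [min_le_iff] at e3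
      omega
    have fin : ∀ t, H.Adj (c 1) t → (t = c (N - 2) ∨ H.Adj t (c (N - 2))) → False := by
      intro t h1 h2
      rcases h2 with h2 | h2
      · rw [h2] at h1
        rw [dist_eq_one_iff_adj.2 h1] at h1M
        omega
      · have e1 := h1.reachable.dist_triangle_left (c (N - 2))
        rw [dist_eq_one_iff_adj.2 h1, dist_eq_one_iff_adj.2 h2] at e1
        omega
    have hD : H'.dist (c k) y = k ∨ H'.dist (c k) y = k - 1 := by omega
    rcases hD with hD | hD
    · obtain ⟨w, hw1, hw2, hw3⟩ := hT (k - 1) (c k) (c (N - 1)) y (by omega) (by omega) hyN'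
      have g1 : H.Adj (c 1) w := by
        rcases hQ (k - 1) (c k) y (c 1) w (by omega) hy1'.symm hw2 ha1 hw3 with h | h
        · rw [← h] at hw1
          exact absurd (hle hw1).symm hna1
        · exact hle h
      have g2 : w = c (N - 2) ∨ H.Adj w (c (N - 2)) := by
        rcases hQ (k - 1) (c k) (c (N - 1)) w (c (N - 2)) (by omega) hw1 hMN hw3 haM with h | h
        · exact Or.inl h
        · exact Or.inr (hle h)
      exact fin w g1 g2
    · have g2 : y = c (N - 2) ∨ H.Adj y (c (N - 2)) := by
        rcases hQ (k - 1) (c k) (c (N - 1)) y (c (N - 2)) (by omega) hyN' hMN hD haM with h | h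
        · exact Or.inl h
        · exact Or.inr (hle h)
      exact fin y hy1 g2

lemma mod_cases {N a : ℕ} (h : a < 2 * N) : (a < N ∧ a % N = a) ∨ (N ≤ a ∧ a % N = a - N) := by
  by_cases h1 : a < N
  · exact Or.inl ⟨h1, Nat.mod_eq_of_lt h1⟩
  · refine Or.inr ⟨by omega, ?_⟩
    rw [Nat.mod_eq_sub_mod (by omega), Nat.mod_eq_of_lt (by omega)]

lemma add_vertex {x y : V} (hH' : ∀ a b, H'.Adj a b ↔ H.Adj a b ∧ a ≠ x ∧ b ≠ x)
    (hB : Br H') (h4 : Ch4 H) (h5 : Ch5 H) (hxy : H.Adj x y)
    (hdom : ∀ u, H.Adj x u → u = y ∨ H.Adj u y) : Br H := by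
  intro N c hN hc
  by_contra hcon
  have hlow : ∀ i j, i ≤ j → j < N → min (j - i) (N - (j - i)) ≤ H.dist (c i) (c j) := by
    intro i j h1 h2
    by_contra h3
    exact hcon ⟨i, j, h1, h2, by omega⟩
  have hle : H' ≤ H := by
    intro a b hab
    exact ((hH' a b).1 hab).1
  by_cases hx : ∃ s, s < N ∧ c s = x
  · obtain ⟨s, hs, hsx⟩ := hx
    refine add_core hH' hB h4 h5 hxy hdom (N := N) (c := fun i => c ((s + i) % N)) hN ?_ ?_ ?_
    · constructor
      · intro i hi
        show H.Adj (c ((s + i) % N)) (c ((s + (i + 1)) % N))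
        rcases mod_cases (N := N) (a := s + i) (by omega) with ⟨e1, e2⟩ | ⟨e1, e2⟩ <;>
        rcases mod_cases (N := N) (a := s + (i + 1)) (by omega) with ⟨e3, e4⟩ | ⟨e3, e4⟩
        · rw [e2, e4]; exact hc.adj (s + i) (by omega)
        · rw [e2, e4, show s + i = N - 1 by omega, show s + (i + 1) - N = 0 by omega]
          exact hc.close
        · omega
        · rw [e2, e4, show s + (i + 1) - N = (s + i - N) + 1 by omega]
          exact hc.adj _ (by omega)
      · show H.Adj (c ((s + (N - 1)) % N)) (c ((s + 0) % N))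
        rcases mod_cases (N := N) (a := s + (N - 1)) (by omega) with ⟨e1, e2⟩ | ⟨e1, e2⟩
        · rw [e2, Nat.mod_eq_of_lt (by omega : s + 0 < N), show s + 0 = 0 by omega,
            show s + (N - 1) = N - 1 by omega]
          exact hc.close
        · rw [e2, Nat.mod_eq_of_lt (by omega : s + 0 < N),
            show s + 0 = s + (N - 1) - N + 1 by omega]
          exact hc.adj _ (by omega)
      · intro i j hi hj hij
        have hij' : c ((s + i) % N) = c ((s + j) % N) := hij
        have := hc.inj _ _ (Nat.mod_lt _ (by omega)) (Nat.mod_lt _ (by omega)) hij'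
        rcases mod_cases (N := N) (a := s + i) (by omega) with ⟨e1, e2⟩ | ⟨e1, e2⟩ <;>
        rcases mod_cases (N := N) (a := s + j) (by omega) with ⟨e3, e4⟩ | ⟨e3, e4⟩ <;> omega
    · show c ((s + 0) % N) = x
      rw [Nat.mod_eq_of_lt (by omega : s + 0 < N)]
      exact hsx
    · intro i j hij hj
      show min (j - i) (N - (j - i)) ≤ H.dist (c ((s + i) % N)) (c ((s + j) % N))
      rcases mod_cases (N := N) (a := s + i) (by omega) with ⟨e1, e2⟩ | ⟨e1, e2⟩ <;>
      rcases mod_cases (N := N) (a := s + j) (by omega) with ⟨e3, e4⟩ | ⟨e3, e4⟩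
      · rw [e2, e4]
        have := hlow (s + i) (s + j) (by omega) e3
        rwa [show s + j - (s + i) = j - i by omega] at this
      · rw [e2, e4, dist_comm]
        have := hlow (s + j - N) (s + i) (by omega) e1
        rwa [show s + i - (s + j - N) = N - (j - i) by omega,
          show N - (N - (j - i)) = j - i by omega, min_comm] at this
      · omega
      · rw [e2, e4]
        have := hlow (s + i - N) (s + j - N) (by omega) (by omega)
        rwa [show s + j - N - (s + i - N) = j - i by omega] at this
  · push Not at hx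
    have hS : SCyc H' N c := by
      constructor
      · intro i hi
        exact (hH' _ _).2 ⟨hc.adj i hi, hx i (by omega), hx (i + 1) hi⟩
      · exact (hH' _ _).2 ⟨hc.close, hx (N - 1) (by omega), hx 0 (by omega)⟩
      · exact hc.inj
    obtain ⟨i, j, hij, hj, hd⟩ := hB N c hN hS
    obtain ⟨p, _⟩ := seq_walk (G := H') (c := c) hij (fun m h1 h2 => hS.adj m (by omega))
    have := Reachable.dist_anti hle p.reachable
    have := hlow i j hij hj
    omega

end Pool.Agent.MP_1b70d9_co
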