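import Mathlib

set_option autoImplicit false

namespace Pool.Agent.MP_1b70d9_co

open SimpleGraph

universe u

variable {V : Type u} {G : SimpleGraph V}

/-- sequence form of a cycle of length `N` -/
structure SCyc (G : SimpleGraph V) (N : ℕ) (c : ℕ → V) : Prop where
  adj : ∀ i, i + 1 < N → G.Adj (c i) (c (i + 1))
  close : G.Adj (c (N - 1)) (c 0)
  inj : ∀ i j, i < N → j < N → c i = c j → i = j

/-- every cycle of length at least four has a shortcut -/
def Br (G : SimpleGraph V) : Prop :=
  ∀ (N : ℕ) (c : ℕ → V), 4 ≤ N → SCyc G N c →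
    ∃ i j : ℕ, i ≤ j ∧ j < N ∧ G.dist (c i) (c j) < min (j - i) (N - (j - i))

lemma exists_walk (n : ℕ) : ∀ (c : ℕ → V), (∀ i, i < n → G.Adj (c i) (c (i + 1))) →
    ∃ p : G.Walk (c 0) (c n), p.length = n ∧ ∀ i, i ≤ n → p.getVert i = c i := by
  induction n with
  | zero =>
    intro c _
    refine ⟨Walk.nil, rfl, ?_⟩
    intro i hi
    obtain rfl : i = 0 := by omega
    rfl
  | succ n ih =>
    intro c h
    obtain ⟨p, hp1, hp2⟩ := ih (fun i => c (i + 1)) (fun i hi => h (i + 1) (by omega))
    refine ⟨Walk.cons (h 0 (by omega)) p, by simp [hp1], ?_⟩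
    intro i hi
    cases i with
    | zero => rfl
    | succ i => exact hp2 i (by omega)

lemma br_of_walk
    (h : ∀ (u : V) (c : G.Walk u u), c.IsCycle → 4 ≤ c.length →
        ∃ i j : ℕ, i ≤ j ∧ j < c.length ∧
          G.dist (c.getVert i) (c.getVert j) < min (j - i) (c.length - (j - i))) : Br G := by
  intro N c hN hc
  obtain ⟨p, hp1, hp2⟩ := exists_walk (G := G) (N - 1) c (fun i hi => hc.adj i (by omega))
  have hpath : p.IsPath := by
    rw [← Walk.IsPath.getVert_injOn_iff]
    intro i hi j hj hij
    simp only [Set.mem_ofPred_eq, hp1] at hi hj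
    rw [hp2 i hi, hp2 j hj] at hij
    exact hc.inj i j (by omega) (by omega) hij
  have hcyc : (Walk.cons hc.close p).IsCycle := by
    rw [Walk.isCycle_iff_isPath_tail_and_le_length]
    constructor
    · simpa using hpath
    · simp [hp1]; omega
  obtain ⟨i, j, hij, hj, hd⟩ := h _ _ hcyc (by simp [hp1]; omega)
  simp only [Walk.length_cons, hp1] at hj hd
  rcases Nat.eq_zero_or_pos i with rfl | hi
  · rcases Nat.eq_zero_or_pos j with rfl | hj0
    · simp at hd
    · rw [Walk.getVert_cons _ _ (by omega : j ≠ 0), Walk.getVert_zero, hp2 (j - 1) (by omega),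
        dist_comm] at hd
      refine ⟨j - 1, N - 1, by omega, by omega, ?_⟩
      refine lt_of_lt_of_le hd ?_
      rw [le_min_iff]
      constructor
      · have := min_le_right (j - 0) (N - 1 + 1 - (j - 0)); omega
      · have := min_le_left (j - 0) (N - 1 + 1 - (j - 0)); omega
  · rw [Walk.getVert_cons _ _ (by omega : j ≠ 0), Walk.getVert_cons _ _ (by omega : i ≠ 0),
      hp2 (j - 1) (by omega), hp2 (i - 1) (by omega)] at hd
    refine ⟨i - 1, j - 1, by omega, by omega, ?_⟩
    refine lt_of_lt_of_le hd ?_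
    rw [le_min_iff]
    constructor
    · have := min_le_left (j - i) (N - 1 + 1 - (j - i)); omega
    · have := min_le_right (j - i) (N - 1 + 1 - (j - i)); omega

/-- conversely: sequence form implies the walk form, for an induced subgraph seen on `V`. -/
def res (G : SimpleGraph V) (T : Set V) : SimpleGraph V where
  Adj x y := G.Adj x y ∧ x ∈ T ∧ y ∈ T
  symm := ⟨fun _ _ h => ⟨h.1.symm, h.2.2, h.2.1⟩⟩
  loopless := ⟨fun _ h => G.loopless.irrefl _ h.1⟩

lemma res_adj {T : Set V} {x y : V} : (res G T).Adj x y ↔ G.Adj x y ∧ x ∈ T ∧ y ∈ T := Iff.rfl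

lemma res_walk_support {T : Set V} {x y : V} (p : (res G T).Walk x y) (hx : x ∈ T) :
    ∀ z ∈ p.support, z ∈ T := by
  induction p with
  | nil => simpa using hx
  | cons h q ih =>
    intro z hz
    rw [Walk.support_cons, List.mem_cons] at hz
    rcases hz with rfl | hz
    · exact hx
    · exact ih (res_adj.1 h).2.2 z hz

lemma res_to_induce {T : Set V} {x y : V} (p : (res G T).Walk x y) : ∀ (hx : x ∈ T) (hy : y ∈ T),
    ∃ q : (G.induce T).Walk ⟨x, hx⟩ ⟨y, hy⟩, q.length = p.length := by
  induction p with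
  | nil => intro hx hy; exact ⟨Walk.nil, rfl⟩
  | cons h q ih =>
    intro hx hy
    obtain ⟨q', hq'⟩ := ih (res_adj.1 h).2.2 hy
    exact ⟨Walk.cons (by simpa using (res_adj.1 h).1) q', by simp [hq']⟩

lemma induce_reach_res {T : Set V} {x y : T} (h : (G.induce T).Reachable x y) :
    (res G T).Reachable (x : V) (y : V) := by
  let f : (G.induce T) →g (res G T) := ⟨fun x => (x : V), by
    intro a b hab
    exact res_adj.2 ⟨by simpa using hab, a.2, b.2⟩⟩
  exact h.map f

lemma dist_induce_le {T : Set V} {x y : T} (h : (G.induce T).Reachable x y) :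
    (G.induce T).dist x y ≤ (res G T).dist (x : V) (y : V) := by
  obtain ⟨p, hp⟩ := (induce_reach_res h).exists_walk_length_eq_dist
  obtain ⟨q, hq⟩ := res_to_induce p x.2 y.2
  rw [← hp, ← hq]
  exact dist_le q

lemma walk_of_br {T : Set V} (h : Br (res G T)) :
    ∀ (u : T) (c : (G.induce T).Walk u u), c.IsCycle → 4 ≤ c.length →
          ∃ i j : ℕ, i ≤ j ∧ j < c.length ∧
            (G.induce T).dist (c.getVert i) (c.getVert j)
              < min (j - i) (c.length - (j - i)) := by
  intro u c hc hl
  have hS : SCyc (res G T) c.length (fun i => ((c.getVert i : T) : V)) := by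
    constructor
    · intro i hi
      have := c.adj_getVert_succ (i := i) (by omega)
      exact res_adj.2 ⟨by simpa using this, (c.getVert i).2, (c.getVert (i + 1)).2⟩
    · have := c.adj_getVert_succ (i := c.length - 1) (by omega)
      rw [show c.length - 1 + 1 = c.length by omega, Walk.getVert_length] at this
      simp only [Walk.getVert_zero]
      exact res_adj.2 ⟨by simpa using this, (c.getVert _).2, u.2⟩
    · intro i j hi hj hij
      have := hc.getVert_injOn' (x₁ := i) (x₂ := j) (by simp; omega) (by simp; omega)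
        (Subtype.ext hij)
      exact this
  obtain ⟨i, j, hij, hj, hd⟩ := h _ _ hl hS
  refine ⟨i, j, hij, hj, lt_of_le_of_lt ?_ hd⟩
  apply dist_induce_le
  exact ⟨((c.take i).reverse).append (c.take j)⟩

end Pool.Agent.MP_1b70d9_co
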