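import Pool.Agent.Lib.MP_1b70d9_co.Add

set_option autoImplicit false
set_option maxHeartbeats 4000000

namespace Pool.Agent.MP_1b70d9_co

open SimpleGraph

universe u

variable {V : Type u} {G : SimpleGraph V}

noncomputable def base (G : SimpleGraph V) (v : V) : V := Quot.out (G.connectedComponentMk v)

lemma base_reach (v : V) : G.Reachable (base G v) v := by
  apply ConnectedComponent.exact
  exact Quot.out_eq _

lemma base_eq {u v : V} (h : G.Adj u v) : base G u = base G v := by
  unfold base
  rw [ConnectedComponent.sound h.reachable]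

noncomputable def lev (G : SimpleGraph V) (v : V) : ℕ := G.dist (base G v) v

lemma lev_adj {u v : V} (h : G.Adj u v) : lev G v ≤ lev G u + 1 := by
  unfold lev
  rw [base_eq h]
  exact adj_le h

lemma lev_zero {v : V} (h : lev G v = 0) : v = base G v :=
  ((base_reach v).dist_eq_zero_iff.1 h).symm

lemma lev_nb {v : V} {n : ℕ} (h : lev G v = n + 1) : ∃ u, G.Adj v u ∧ lev G u = n := by
  obtain ⟨u, hu1, hu2⟩ := nb h
  refine ⟨u, hu1, ?_⟩
  unfold lev
  rw [← base_eq hu1]
  exact hu2

noncomputable def wr (v : V) : Ordinal.{u} := Ordinal.typein (@WellOrderingRel V) v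

noncomputable def kap (V : Type u) : Ordinal.{u} := Ordinal.type (@WellOrderingRel V)

lemma wr_inj {u v : V} (h : wr u = wr v) : u = v := Ordinal.typein_injective _ h

lemma wr_lt (v : V) : wr v < kap V := Ordinal.typein_lt_type _ v

lemma kap_ne (v : V) : kap V ≠ 0 := by
  intro h
  have := wr_lt v
  rw [h] at this
  exact absurd this (not_lt_of_ge zero_le)

noncomputable def rk (G : SimpleGraph V) : ℕ → V → Ordinal.{u}
  | 0, v => wr v
  | n + 1, v => kap V * sInf {o | ∃ u, G.Adj v u ∧ lev G u = n ∧ rk G n u = o} + wr v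

noncomputable def mo (G : SimpleGraph V) (n : ℕ) (v : V) : Ordinal.{u} :=
  sInf {o | ∃ u, G.Adj v u ∧ lev G u = n ∧ rk G n u = o}

lemma rk_succ (n : ℕ) (v : V) : rk G (n + 1) v = kap V * mo G n v + wr v := rfl

lemma rk_inj {n : ℕ} {u v : V} (h : rk G n u = rk G n v) : u = v := by
  rcases n with _ | n
  · exact wr_inj h
  · rw [rk_succ, rk_succ] at h
    have h2 := congrArg (fun x => x % kap V) h
    simp only [Ordinal.mul_add_mod_self, Ordinal.mod_eq_of_lt (wr_lt u),
      Ordinal.mod_eq_of_lt (wr_lt v)] at h2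
    exact wr_inj h2

lemma mo_le {n : ℕ} {u v : V} (h : rk G (n + 1) u < rk G (n + 1) v) : mo G n u ≤ mo G n v := by
  rw [rk_succ, rk_succ] at h
  by_contra hcon
  push Not at hcon
  have h1 : mo G n v + 1 ≤ mo G n u := Order.add_one_le_of_lt hcon
  have h2 : kap V * (mo G n v + 1) ≤ kap V * mo G n u := by gcongr
  rw [mul_add, mul_one] at h2
  have h3 : kap V * mo G n v + wr v < kap V * mo G n v + kap V := by
    have := wr_lt v
    gcongr
  have h4 : kap V * mo G n u ≤ kap V * mo G n u + wr u := le_self_add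
  exact absurd h (not_lt_of_ge ((h3.le.trans h2).trans h4))

/-- `f` is the father of `v` -/
def IsF (G : SimpleGraph V) (v f : V) : Prop :=
  G.Adj v f ∧ lev G f + 1 = lev G v ∧
    ∀ u, G.Adj v u → lev G u + 1 = lev G v → rk G (lev G f) f ≤ rk G (lev G u) u

lemma exF {v : V} (h : lev G v ≠ 0) : ∃ f, IsF G v f ∧ rk G (lev G f) f = mo G (lev G f) v := by
  obtain ⟨n, hn⟩ : ∃ n, lev G v = n + 1 := ⟨lev G v - 1, by omega⟩
  have hne : {o | ∃ u, G.Adj v u ∧ lev G u = n ∧ rk G n u = o}.Nonempty := by
    obtain ⟨u, h1, h2⟩ := lev_nb hn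
    exact ⟨rk G n u, u, h1, h2, rfl⟩
  obtain ⟨f, hf1, hf2, hf3⟩ := csInf_mem hne
  refine ⟨f, ⟨hf1, by omega, ?_⟩, ?_⟩
  · intro u hu1 hu2
    have : lev G u = n := by omega
    rw [this, hf2, hf3]
    exact csInf_le' ⟨u, hu1, this, rfl⟩
  · rw [hf2, hf3]
    rfl

lemma isF_mo {v f : V} (h : IsF G v f) : rk G (lev G f) f = mo G (lev G f) v := by
  obtain ⟨f', hf', hm⟩ := exF (G := G) (v := v) (by have := h.2.1; omega)
  have e : lev G f = lev G f' := by have := h.2.1; have := hf'.2.1; omega
  have h1 := h.2.2 f' hf'.1 hf'.2.1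
  have h2 := hf'.2.2 f h.1 h.2.1
  have h3 := le_antisymm h1 h2
  rw [h3, hm, e]

lemma QG (hB : Br G) {v u u' : V} (h1 : G.Adj v u) (h2 : G.Adj v u') (h3 : lev G u + 1 = lev G v)
    (h4 : lev G u' + 1 = lev G v) : u = u' ∨ G.Adj u u' := by
  unfold lev at h3 h4
  rw [← base_eq h1] at h3
  rw [← base_eq h2] at h4
  exact (QT hB _).1 (base G v) v u u' h3.symm h1 h2 rfl (by omega)

lemma TG (hB : Br G) {v v' : V} (h : G.Adj v v') {n : ℕ} (h3 : lev G v = n + 1)
    (h4 : lev G v' = n + 1) : ∃ w, G.Adj v w ∧ G.Adj v' w ∧ lev G w = n := by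
  unfold lev at h3 h4
  rw [← base_eq h] at h4
  obtain ⟨w, h5, h6, h7⟩ := (QT hB n).2 (base G v) v v' h3 h4 h
  refine ⟨w, h5, h6, ?_⟩
  unfold lev
  rw [← base_eq h5]
  exact h7

lemma domF (hB : Br G) (n : ℕ) : ∀ v u f, lev G v = n + 1 → lev G u = n + 1 → G.Adj u v →
    rk G (n + 1) u < rk G (n + 1) v → IsF G v f → G.Adj u f := by
  have h4 := ch4_of_br hB
  have h5 := ch5_of_br hB
  induction n with
  | zero =>
    intro v u f hv hu huv _ hf
    obtain ⟨g, hg, _⟩ := exF (G := G) (v := u) (by omega)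
    have e1 := lev_zero (G := G) (v := f) (by have := hf.2.1; omega)
    have e2 := lev_zero (G := G) (v := g) (by have := hg.2.1; omega)
    rw [← base_eq hf.1, ← base_eq huv, base_eq hg.1] at e1
    rw [e1, ← e2]
    exact hg.1
  | succ n ih =>
    intro v u fv hv hu huv hlt hfv
    obtain ⟨fu, hfu, _⟩ := exF (G := G) (v := u) (by omega)
    have lfv : lev G fv = n + 1 := by have := hfv.2.1; omega
    have lfu : lev G fu = n + 1 := by have := hfu.2.1; omega
    have m1 := isF_mo hfv
    have m2 := isF_mo hfu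
    have m3 := mo_le hlt
    rw [lfv] at m1
    rw [lfu] at m2
    rw [← m1, ← m2] at m3
    rcases eq_or_lt_of_le m3 with m4 | m4
    · have := rk_inj m4
      rw [← this]
      exact hfu.1
    by_contra hcon
    obtain ⟨w, hw1, hw2, hw3⟩ := TG hB huv hu hv
    have a1 := hfv.2.2 w hw2 (by omega)
    rw [lfv, hw3] at a1
    have a2 : rk G (n + 1) fv ≠ rk G (n + 1) w := by
      intro e
      have := rk_inj e
      rw [← this] at hw1
      exact hcon hw1
    have a3 := lt_of_le_of_ne a1 a2
    have b1 : G.Adj fv w := by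
      rcases QG hB hfv.1 hw2 (by omega) (by omega) with h | h
      · exact absurd (by rw [h]) a2
      · exact h
    have b2 : G.Adj fu w := by
      rcases QG hB hfu.1 hw1 (by omega) (by omega) with h | h
      · rw [h] at m4
        exact absurd (m4.trans a3) (lt_irrefl _)
      · exact h
    obtain ⟨fw, hfw, _⟩ := exF (G := G) (v := w) (by omega)
    have lfw : lev G fw = n := by have := hfw.2.1; omega
    have c1 := ih w fv fw hw3 lfv b1 a3 hfw
    have c2 := ih w fu fw hw3 lfu b2 (m4.trans a3) hfw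
    have nvfu : ¬ G.Adj v fu := by
      intro h
      have := hfv.2.2 fu h (by omega)
      rw [lfv, lfu] at this
      exact absurd m4 (not_lt_of_ge this)
    have n1 : u ≠ fv := fun e => by rw [← e] at lfv; omega
    have n2 : v ≠ fu := fun e => by rw [← e] at lfu; omega
    have n3 : u ≠ fw := fun e => by rw [← e] at lfw; omega
    have n4 : v ≠ fw := fun e => by rw [← e] at lfw; omega
    have n5 : fv ≠ fu := fun e => by rw [e] at m4; exact absurd m4 (lt_irrefl _)
    by_cases hff : G.Adj fu fv
    · rcases h4 u v fv fu huv hfv.1 hff.symm hfu.1.symm n1 n2 with h | h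
      · exact hcon h
      · exact nvfu h
    · rcases h5 u v fv fw fu huv hfv.1 c1 c2.symm hfu.1.symm n1 n3 n4 n2 n5 with h | h | h | h | h
      · exact hcon h
      · have := lev_adj h.symm
        omega
      · have := lev_adj h.symm
        omega
      · exact nvfu h
      · exact hff h.symm

open Classical in
/-- a choice of the father -/
noncomputable def fa (G : SimpleGraph V) (v : V) : V :=
  if h : lev G v ≠ 0 then (exF h).choose else v

lemma fa_isF {v : V} (h : lev G v ≠ 0) : IsF G v (fa G v) := by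
  unfold fa
  rw [dif_pos h]
  exact (exF h).choose_spec.1

lemma ch4_res (h : Ch4 G) (T : Set V) : Ch4 (res G T) := by
  intro a b c d hab hbc hcd hda hac hbd
  rw [res_adj] at *
  rcases h a b c d hab.1 hbc.1 hcd.1 hda.1 hac hbd with g | g
  · exact Or.inl ⟨g, hab.2.1, hbc.2.2⟩
  · exact Or.inr (res_adj.2 ⟨g, hab.2.2, hcd.2.2⟩)

lemma ch5_res (h : Ch5 G) (T : Set V) : Ch5 (res G T) := by
  intro a b c d e hab hbc hcd hde hea hac had hbd hbe hce
  simp only [res_adj] at *
  rcases h a b c d e hab.1 hbc.1 hcd.1 hde.1 hea.1 hac had hbd hbe hce with g | g | g | g | g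
  · exact Or.inl ⟨g, hab.2.1, hbc.2.2⟩
  · exact Or.inr (Or.inl ⟨g, hab.2.1, hcd.2.2⟩)
  · exact Or.inr (Or.inr (Or.inl ⟨g, hab.2.2, hcd.2.2⟩))
  · exact Or.inr (Or.inr (Or.inr (Or.inl ⟨g, hab.2.2, hde.2.2⟩)))
  · exact Or.inr (Or.inr (Or.inr (Or.inr ⟨g, hbc.2.2, hde.2.2⟩)))

open Classical in
lemma closed_br (hB : Br G) (m : ℕ) : ∀ F : Finset V, F.card = m →
    (∀ v ∈ F, lev G v ≠ 0 → fa G v ∈ F) → Br (res G (F : Set V)) := by
  induction m with
  | zero =>
    intro F hF _ N c hN hc
    rw [Finset.card_eq_zero] at hF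
    subst hF
    have := (res_adj.1 (hc.adj 0 (by omega))).2.1
    simp at this
  | succ m ih =>
    intro F hF hcl
    have hne : F.Nonempty := by rw [← Finset.card_pos]; omega
    obtain ⟨x, hxF, hmax⟩ := Finset.exists_max_image F
      (fun v => toLex (lev G v, rk G (lev G v) v)) hne
    by_cases h0 : lev G x = 0
    · intro N c hN hc
      exfalso
      have h1 := res_adj.1 (hc.adj 0 (by omega))
      have z : ∀ v ∈ F, lev G v = 0 := by
        intro v hv
        have := hmax v hv
        rw [Prod.Lex.toLex_le_toLex] at this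
        omega
      have e1 := lev_zero (z _ h1.2.1)
      have e2 := lev_zero (z _ h1.2.2)
      rw [base_eq h1.1, ← e2] at e1
      rw [e1] at h1
      exact G.loopless.irrefl _ h1.1
    · have hf := fa_isF h0
      have hfF := hcl x hxF h0
      have hB' := ih (F.erase x) (by rw [Finset.card_erase_of_mem hxF]; omega) (by
        intro v hv hv0
        rw [Finset.mem_erase] at hv ⊢
        refine ⟨?_, hcl v hv.2 hv0⟩
        intro e
        have h1 := (fa_isF hv0).2.1
        rw [e] at h1
        have := hmax v hv.2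
        rw [Prod.Lex.toLex_le_toLex] at this
        omega)
      refine add_vertex (x := x) (y := fa G x) ?_ hB' (ch4_res (ch4_of_br hB) _)
        (ch5_res (ch5_of_br hB) _) ?_ ?_
      · intro a b
        simp only [res_adj, Finset.coe_erase, Set.mem_sdiff, Finset.mem_coe, Set.mem_singleton_iff]
        tauto
      · exact res_adj.2 ⟨hf.1, hxF, hfF⟩
      · intro u hu
        obtain ⟨hxu, _, huF⟩ := res_adj.1 hu
        have hm := hmax u huF
        rw [Prod.Lex.toLex_le_toLex] at hm
        simp only at hm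
        have l1 := lev_adj hxu
        have l2 := lev_adj hxu.symm
        have hl : lev G u + 1 = lev G x ∨ lev G u = lev G x := by omega
        rcases hl with hl | hl
        · rcases QG hB hxu hf.1 hl hf.2.1 with g | g
          · exact Or.inl g
          · exact Or.inr (res_adj.2 ⟨g, huF, hfF⟩)
        · right
          obtain ⟨n, hn⟩ : ∃ n, lev G x = n + 1 := ⟨lev G x - 1, by omega⟩
          have hr : rk G (n + 1) u < rk G (n + 1) x := by
            rcases hm with hm | ⟨_, hm⟩
            · omega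
            · rw [hl, hn] at hm
              refine lt_of_le_of_ne hm ?_
              intro e
              exact hxu.ne' (rk_inj e)
          exact res_adj.2 ⟨domF hB n x u (fa G x) hn (by omega) hxu.symm hr hf, huF, hfF⟩

open Classical in
theorem main (hB : Br G) (S : Finset V) : ∃ T : Finset V, S ⊆ T ∧ Br (res G (T : Set V)) := by
  refine ⟨S.biUnion (fun v => (Finset.range (lev G v + 1)).image (fun k => (fa G)^[k] v)), ?_, ?_⟩
  · intro v hv
    rw [Finset.mem_biUnion]
    refine ⟨v, hv, ?_⟩
    rw [Finset.mem_image]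
    exact ⟨0, by simp, rfl⟩
  · refine closed_br hB _ _ rfl ?_
    intro x hx hx0
    rw [Finset.mem_biUnion] at hx ⊢
    obtain ⟨v, hv, hx⟩ := hx
    refine ⟨v, hv, ?_⟩
    rw [Finset.mem_image] at hx ⊢
    obtain ⟨k, hk, rfl⟩ := hx
    have key : ∀ k, k ≤ lev G v → lev G ((fa G)^[k] v) = lev G v - k := by
      intro k
      induction k with
      | zero => intro _; simp
      | succ k ih =>
        intro hk
        have e := ih (by omega)
        rw [Function.iterate_succ_apply']
        have := (fa_isF (G := G) (v := (fa G)^[k] v) (by omega)).2.1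
        omega
    rw [Finset.mem_range] at hk
    have := key k (by omega)
    refine ⟨k + 1, by rw [Finset.mem_range]; omega, ?_⟩
    rw [Function.iterate_succ_apply']

end Pool.Agent.MP_1b70d9_co
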