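import Pool.Agent.Lib.MP_1b70d9_co.Basic

set_option autoImplicit false
set_option maxHeartbeats 4000000

namespace Pool.Agent.MP_1b70d9_co

open SimpleGraph

universe u

variable {V : Type u} {G : SimpleGraph V}

def Ch4 (G : SimpleGraph V) : Prop :=
  ∀ a b c d, G.Adj a b → G.Adj b c → G.Adj c d → G.Adj d a → a ≠ c → b ≠ d →
    G.Adj a c ∨ G.Adj b d

def Ch5 (G : SimpleGraph V) : Prop :=
  ∀ a b c d e, G.Adj a b → G.Adj b c → G.Adj c d → G.Adj d e → G.Adj e a →
    a ≠ c → a ≠ d → b ≠ d → b ≠ e → c ≠ e →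
    G.Adj a c ∨ G.Adj a d ∨ G.Adj b d ∨ G.Adj b e ∨ G.Adj c e

lemma adj_of_lt {x y : V} (hr : G.Reachable x y) (hne : x ≠ y) (h : G.dist x y < 2) :
    G.Adj x y := by
  have := hr.pos_dist_of_ne hne
  exact dist_eq_one_iff_adj.1 (by omega)

lemma ch4_of_br (h : Br G) : Ch4 G := by
  intro a b c d hab hbc hcd hda hac hbd
  have hS : SCyc G 4 (fun i => if i = 0 then a else if i = 1 then b else if i = 2 then c else d) := by
    constructor
    · intro i hi
      have : i = 0 ∨ i = 1 ∨ i = 2 := by omega
      rcases this with rfl | rfl | rfl <;> simpa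
    · simpa
    · intro i j hi hj hij
      have h1 := hab.ne
      have h2 := hbc.ne
      have h3 := hcd.ne
      have h4 := hda.ne
      have hi' : i = 0 ∨ i = 1 ∨ i = 2 ∨ i = 3 := by omega
      have hj' : j = 0 ∨ j = 1 ∨ j = 2 ∨ j = 3 := by omega
      rcases hi' with rfl | rfl | rfl | rfl <;> rcases hj' with rfl | rfl | rfl | rfl <;>
        simp_all
  obtain ⟨i, j, hij, hj, hd⟩ := h 4 _ (le_refl _) hS
  have rab := hab.reachable
  have rbc := hbc.reachable
  have rcd := hcd.reachable
  have hi' : i = 0 ∨ i = 1 ∨ i = 2 ∨ i = 3 := by omega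
  have hj' : j = 0 ∨ j = 1 ∨ j = 2 ∨ j = 3 := by omega
  rcases hi' with rfl | rfl | rfl | rfl <;> rcases hj' with rfl | rfl | rfl | rfl <;>
    simp [dist_eq_one_iff_adj.2, hab, hbc, hcd, hda, hda.symm] at hd hij
  · left; exact adj_of_lt (rab.trans rbc) hac (by omega)
  · right; exact adj_of_lt (rbc.trans rcd) hbd (by omega)

lemma ch5_of_br (h : Br G) : Ch5 G := by
  intro a b c d e hab hbc hcd hde hea hac had hbd hbe hce
  have hS : SCyc G 5 (fun i => if i = 0 then a else if i = 1 then b else if i = 2 then c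
      else if i = 3 then d else e) := by
    constructor
    · intro i hi
      have : i = 0 ∨ i = 1 ∨ i = 2 ∨ i = 3 := by omega
      rcases this with rfl | rfl | rfl | rfl <;> simpa
    · simpa
    · intro i j hi hj hij
      have h1 := hab.ne
      have h2 := hbc.ne
      have h3 := hcd.ne
      have h4 := hde.ne
      have h5 := hea.ne
      have hi' : i = 0 ∨ i = 1 ∨ i = 2 ∨ i = 3 ∨ i = 4 := by omega
      have hj' : j = 0 ∨ j = 1 ∨ j = 2 ∨ j = 3 ∨ j = 4 := by omega
      rcases hi' with rfl | rfl | rfl | rfl | rfl <;>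
        rcases hj' with rfl | rfl | rfl | rfl | rfl <;> simp_all
  obtain ⟨i, j, hij, hj, hd⟩ := h 5 _ (by omega) hS
  have rab := hab.reachable
  have rbc := hbc.reachable
  have rcd := hcd.reachable
  have rde := hde.reachable
  have hi' : i = 0 ∨ i = 1 ∨ i = 2 ∨ i = 3 ∨ i = 4 := by omega
  have hj' : j = 0 ∨ j = 1 ∨ j = 2 ∨ j = 3 ∨ j = 4 := by omega
  rcases hi' with rfl | rfl | rfl | rfl | rfl <;>
    rcases hj' with rfl | rfl | rfl | rfl | rfl <;>
    simp [dist_eq_one_iff_adj.2, hab, hbc, hcd, hde, hea, hea.symm] at hd hij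
  · left; exact adj_of_lt (rab.trans rbc) hac (by omega)
  · right; left; exact adj_of_lt (rab.trans (rbc.trans rcd)) had (by omega)
  · right; right; left; exact adj_of_lt (rbc.trans rcd) hbd (by omega)
  · right; right; right; left; exact adj_of_lt (rbc.trans (rcd.trans rde)) hbe (by omega)
  · right; right; right; right; exact adj_of_lt (rcd.trans rde) hce (by omega)

lemma nb {x y : V} {n : ℕ} (h : G.dist x y = n + 1) : ∃ z, G.Adj y z ∧ G.dist x z = n := by
  have hr : G.Reachable y x := (Reachable.of_dist_ne_zero (by omega : G.dist x y ≠ 0)).symm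
  obtain ⟨p, hp⟩ := hr.exists_walk_length_eq_dist
  rw [dist_comm, h] at hp
  cases p with
  | nil => simp at hp
  | @cons _ z _ hz q =>
    refine ⟨z, hz, ?_⟩
    have h1 : G.dist z x ≤ n := by
      have := dist_le q
      simp at hp
      omega
    have h2 := hz.reachable.dist_triangle_left x
    have h3 : G.dist y z = 1 := dist_eq_one_iff_adj.2 hz
    rw [dist_comm (u := y) (v := x), h] at h2
    rw [dist_comm]
    omega

/-- distances to adjacent vertices differ by at most one -/
lemma adj_le {b x y : V} (h : G.Adj x y) : G.dist b y ≤ G.dist b x + 1 := by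
  have h3 : G.dist x y = 1 := dist_eq_one_iff_adj.2 h
  have := h.reachable.dist_triangle_right b
  omega

lemma adj_le' {b x y : V} (h : G.Adj x y) : G.dist b x ≤ G.dist b y + 1 := adj_le h.symm

def Qn (G : SimpleGraph V) (n : ℕ) : Prop :=
  ∀ b v u u', G.dist b v = n + 1 → G.Adj v u → G.Adj v u' → G.dist b u = n → G.dist b u' = n →
    u = u' ∨ G.Adj u u'

def Tn (G : SimpleGraph V) (n : ℕ) : Prop :=
  ∀ b v v', G.dist b v = n + 1 → G.dist b v' = n + 1 → G.Adj v v' →
    ∃ w, G.Adj v w ∧ G.Adj v' w ∧ G.dist b w = n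

/-- the path-free shortcut lemma -/
lemma Sc {n : ℕ} (hQ : ∀ m, m < n → Qn G m) (hT : ∀ m, m < n → Tn G m) (s : ℕ) :
    ∀ i j : ℕ, i + j = s → 1 ≤ i → 1 ≤ j → i + j ≤ n + 1 → ∀ b x y, G.Reachable b x →
      G.Reachable b y → G.dist b x = i → G.dist b y = j → G.dist x y < i + j →
      ∃ x1 y1, G.Adj b x1 ∧ G.Adj b y1 ∧ G.dist x x1 + 1 = i ∧ G.dist y y1 + 1 = j ∧
        (x1 = y1 ∨ G.Adj x1 y1) := by
  induction s with
  | zero => intro i j h1 h2; omega
  | succ s ih =>
    -- reduction lemma for j ≥ 2
    have key : ∀ i j : ℕ, i + j = s + 1 → 1 ≤ i → 2 ≤ j → i + j ≤ n + 1 → ∀ b x y,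
        G.Reachable b x → G.Reachable b y → G.dist b x = i → G.dist b y = j →
        G.dist x y < i + j →
        ∃ x1 y1, G.Adj b x1 ∧ G.Adj b y1 ∧ G.dist x x1 + 1 = i ∧ G.dist y y1 + 1 = j ∧
        (x1 = y1 ∨ G.Adj x1 y1) := by
      intro i j hs hi hj hn b x y hbx hby hx hy hxy
      obtain ⟨j', rfl⟩ : ∃ j', j = j' + 2 := ⟨j - 2, by omega⟩
      -- it suffices to find y' adjacent to y at distance j'+1 from b with shortcut
      have fin : ∀ y', G.Adj y y' → G.dist b y' = j' + 1 → G.dist x y' < i + (j' + 1) →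
          ∃ x1 y1, G.Adj b x1 ∧ G.Adj b y1 ∧ G.dist x x1 + 1 = i ∧ G.dist y y1 + 1 = j' + 2 ∧
          (x1 = y1 ∨ G.Adj x1 y1) := by
        intro y' hyy' hy' hxy'
        obtain ⟨x1, y1, h1, h2, h3, h4, h5⟩ := ih i (j' + 1) (by omega) hi (by omega) (by omega)
          b x y' hbx (hby.trans hyy'.reachable) hx hy' hxy'
        refine ⟨x1, y1, h1, h2, h3, ?_, h5⟩
        have e1 : G.dist y y1 ≤ G.dist y y' + G.dist y' y1 :=
          hyy'.reachable.dist_triangle_left _
        have e2 : G.dist y y' = 1 := dist_eq_one_iff_adj.2 hyy'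
        have e3 : G.dist b y ≤ G.dist b y1 + G.dist y1 y := h2.reachable.dist_triangle_left _
        have e4 : G.dist b y1 = 1 := dist_eq_one_iff_adj.2 h2
        rw [dist_comm (u := y1) (v := y)] at e3
        omega
      obtain ⟨ym, hyym, hym⟩ := nb (G := G) (x := b) (y := y) (n := j' + 1) hy
      by_cases hc : G.dist x ym < i + (j' + 1)
      · exact fin ym hyym hym hc
      obtain ⟨yk, hymyk, hyk⟩ := nb (G := G) (x := b) (y := ym) (n := j') hym
      have hbyk : G.Reachable b yk := (hby.trans hyym.reachable).trans hymyk.reachable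
      have t1 : G.dist x yk ≤ G.dist x b + G.dist b yk := hbx.symm.dist_triangle_left _
      rw [dist_comm (u := x) (v := b)] at t1
      have t2 : G.dist x ym ≤ G.dist x yk + 1 := adj_le hymyk.symm
      have t3 : G.dist x ym ≤ G.dist x y + 1 := adj_le hyym
      have t4 : G.dist x y ≤ G.dist x ym + 1 := adj_le hyym.symm
      have hxyk : G.dist x yk = i + j' := by omega
      have hxym : G.dist x ym = i + j' + 1 := by omega
      have hD : G.dist x y = i + j' ∨ G.dist x y = i + j' + 1 := by omega
      rcases hD with hD | hD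
      · exfalso
        rcases hQ (i + j') (by omega) x ym y yk hxym hyym.symm hymyk hD hxyk with h | h
        · rw [h] at hy; omega
        · have := adj_le (b := b) h.symm
          omega
      · obtain ⟨w, hw1, hw2, hw3⟩ := hT (i + j') (by omega) x y ym hD hxym hyym
        have hwk : G.Adj w yk := by
          rcases hQ (i + j') (by omega) x ym w yk hxym hw2 hymyk hw3 hxyk with h | h
          · exfalso
            rw [h] at hw1
            have := adj_le (b := b) hw1.symm
            omega
          · exact h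
        have e1 := adj_le (b := b) hwk.symm
        have e2 := adj_le (b := b) hw1.symm
        exact fin w hw1 (by omega) (by omega)
    intro i j hs hi hj hn b x y hbx hby hx hy hxy
    by_cases h2 : 2 ≤ j
    · exact key i j hs hi h2 hn b x y hbx hby hx hy hxy
    by_cases h3 : 2 ≤ i
    · obtain ⟨y1, x1, h1, h2, h3, h4, h5⟩ := key j i (by omega) hj h3 (by omega) b y x hby hbx hy hx
        (by rw [dist_comm]; omega)
      refine ⟨x1, y1, h2, h1, h4, h3, ?_⟩
      rcases h5 with h5 | h5
      · exact Or.inl h5.symm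
      · exact Or.inr h5.symm
    · obtain rfl : i = 1 := by omega
      obtain rfl : j = 1 := by omega
      refine ⟨x, y, dist_eq_one_iff_adj.1 hx, dist_eq_one_iff_adj.1 hy, by simp, by simp, ?_⟩
      by_cases hne : x = y
      · exact Or.inl hne
      · exact Or.inr (adj_of_lt (hbx.symm.trans hby) hne (by omega))


/-- existence of geodesic sequences -/
lemma geo {b x : V} {n : ℕ} (hr : G.Reachable b x) (h : G.dist b x = n) :
    ∃ p : ℕ → V, p 0 = b ∧ p n = x ∧ (∀ i, i < n → G.Adj (p i) (p (i + 1))) ∧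
      (∀ i j, i ≤ j → j ≤ n → G.dist (p i) (p j) = j - i) ∧
      (∀ i j, i ≤ j → j ≤ n → G.Reachable (p i) (p j)) := by
  obtain ⟨w, hw⟩ := hr.exists_walk_length_eq_dist
  rw [h] at hw
  have hadj : ∀ i, i < n → G.Adj (w.getVert i) (w.getVert (i + 1)) := by
    intro i hi
    exact w.adj_getVert_succ (by omega)
  have hwalk : ∀ i j, i ≤ j → j ≤ n → ∃ q : G.Walk (w.getVert i) (w.getVert j), q.length = j - i := by
    intro i j hij hj
    obtain ⟨k, rfl⟩ : ∃ k, j = i + k := ⟨j - i, by omega⟩
    obtain ⟨q, hq, _⟩ := exists_walk (G := G) k (fun k => w.getVert (i + k))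
      (fun k hk => hadj (i + k) (by omega))
    exact ⟨q, by rw [hq]; omega⟩
  have h0 : w.getVert 0 = b := by simp
  have hn : w.getVert n = x := by rw [← hw]; simp
  refine ⟨w.getVert, h0, hn, hadj, ?_, ?_⟩
  · intro i j hij hj
    obtain ⟨q1, hq1⟩ := hwalk 0 i (by omega) (by omega)
    obtain ⟨q2, hq2⟩ := hwalk i j hij hj
    obtain ⟨q3, hq3⟩ := hwalk j n hj (le_refl _)
    have d1 := dist_le q1
    have d2 := dist_le q2
    have d3 := dist_le q3
    have t1 := (q1.reachable).dist_triangle_left (w.getVert n)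
    have t2 := (q2.reachable).dist_triangle_left (w.getVert n)
    have t3 : G.dist (w.getVert 0) (w.getVert n) = n := by rw [h0, hn, h]
    omega
  · intro i j hij hj
    obtain ⟨q2, hq2⟩ := hwalk i j hij hj
    exact q2.reachable

lemma geo_ext {b v u : V} {n : ℕ} (hv : G.dist b v = n + 2) (hvu : G.Adj v u)
    (hu : G.dist b u = n + 1) :
    ∃ p : ℕ → V, p 0 = b ∧ p (n + 1) = u ∧ p (n + 2) = v ∧
      (∀ i, i < n + 2 → G.Adj (p i) (p (i + 1))) ∧
      (∀ i j, i ≤ j → j ≤ n + 2 → G.dist (p i) (p j) = j - i) := by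
  have hr : G.Reachable b u := Reachable.of_dist_ne_zero (by omega)
  obtain ⟨p, h0, h1, h2, h3, h4⟩ := geo hr hu
  refine ⟨fun i => if i ≤ n + 1 then p i else v, by simp [h0], by simp [h1], by simp, ?_, ?_⟩
  · intro i hi
    by_cases hi' : i < n + 1
    · have : i + 1 ≤ n + 1 := by omega
      simp only [hi'.le, this, if_true]
      exact h2 i hi'
    · obtain rfl : i = n + 1 := by omega
      simp only [le_refl, if_true]
      rw [if_neg (by omega), h1]
      exact hvu.symm
  · intro i j hij hj
    show G.dist (if i ≤ n + 1 then p i else v) (if j ≤ n + 1 then p j else v) = j - i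
    by_cases hj' : j ≤ n + 1
    · rw [if_pos hj', if_pos (by omega)]
      exact h3 i j hij hj'
    · obtain rfl : j = n + 2 := by omega
      rw [if_neg hj']
      by_cases hi' : i ≤ n + 1
      · rw [if_pos hi']
        have a1 := h3 i (n + 1) hi' (le_refl _)
        have a2 := h3 0 i (by omega) hi'
        rw [h1] at a1
        rw [h0] at a2
        have a3 := adj_le (b := p i) hvu.symm
        have r := h4 0 i (by omega) hi'
        have a4 := r.dist_triangle_left v
        rw [h0] at a4
        omega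
      · rw [if_neg hi']
        simp
        omega

lemma E {n : ℕ} (h4 : Ch4 G) (h5 : Ch5 G) (hQ : ∀ m, m < n + 1 → Qn G m)
    (hT : ∀ m, m < n + 1 → Tn G m) {b v u u' x1 y1 : V}
    (hv : G.dist b v = n + 2) (hvu : G.Adj v u) (hvu' : G.Adj v u')
    (hu : G.dist b u = n + 1) (hu' : G.dist b u' = n + 1) (hx : G.Adj b x1) (hy : G.Adj b y1)
    (hux : G.dist u x1 = n) (huy : G.dist u' y1 = n) (hxy : x1 = y1 ∨ G.Adj x1 y1) :
    u = u' ∨ G.Adj u u' := by
  by_contra hcon
  push Not at hcon
  obtain ⟨hne, hna⟩ := hcon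
  have rbu : G.Reachable b u := Reachable.of_dist_ne_zero (by omega)
  have rbu' : G.Reachable b u' := Reachable.of_dist_ne_zero (by omega)
  have dx : G.dist x1 v = n + 1 := by
    have a1 := adj_le (b := x1) hvu.symm
    have a2 := adj_le (b := v) hx.symm
    rw [dist_comm (u := v)] at a2
    rw [dist_comm (u := v)] at a2
    rw [dist_comm] at hux
    omega
  have dy : G.dist y1 v = n + 1 := by
    have a1 := adj_le (b := y1) hvu'.symm
    have a2 := adj_le (b := v) hy.symm
    rw [dist_comm (u := v)] at a2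
    rw [dist_comm (u := v)] at a2
    rw [dist_comm] at huy
    omega
  rcases hxy with rfl | hxy
  · rcases hQ n (by omega) x1 v u u' dx hvu hvu' (by rw [dist_comm]; exact hux)
      (by rw [dist_comm]; exact huy) with h | h
    · exact hne h
    · exact hna h
  rcases n with _ | n
  · have e1 : u = x1 := ((rbu.symm.trans hx.reachable).dist_eq_zero_iff).1 hux
    have e2 : u' = y1 := ((rbu'.symm.trans hy.reachable).dist_eq_zero_iff).1 huy
    rw [← e1, ← e2] at hxy
    exact hna hxy
  obtain ⟨w, hw1, hw2, hw3⟩ := hT (n + 1) (by omega) v x1 y1 (by rw [dist_comm]; exact dx)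
    (by rw [dist_comm]; exact dy) hxy
  obtain ⟨r, hvr, hwr⟩ := nb (G := G) (x := w) (y := v) (n := n) (by rw [dist_comm]; exact hw3)
  have dxr : G.dist x1 r = n + 1 := by
    have a1 := hw1.reachable.dist_triangle_left r
    have a2 : G.dist x1 w = 1 := dist_eq_one_iff_adj.2 hw1
    have a3 := adj_le (b := x1) hvr.symm
    omega
  have dyr : G.dist y1 r = n + 1 := by
    have a1 := hw2.reachable.dist_triangle_left r
    have a2 : G.dist y1 w = 1 := dist_eq_one_iff_adj.2 hw2
    have a3 := adj_le (b := y1) hvr.symm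
    omega
  have dbr : G.dist b r = n + 2 := by
    have a1 := hx.reachable.dist_triangle_left r
    have a2 : G.dist b x1 = 1 := dist_eq_one_iff_adj.2 hx
    have a3 := adj_le (b := b) hvr.symm
    omega
  have hru : G.Adj r u := by
    rcases hQ (n + 1) (by omega) x1 v r u dx hvr hvu dxr (by rw [dist_comm]; exact hux) with h | h
    · exfalso
      subst h
      rcases hQ (n + 1) (by omega) y1 v r u' dy hvr hvu' dyr (by rw [dist_comm]; exact huy)
        with h | h
      · exact hne h
      · exact hna h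
    · exact h
  have hru' : G.Adj r u' := by
    rcases hQ (n + 1) (by omega) y1 v r u' dy hvr hvu' dyr (by rw [dist_comm]; exact huy)
      with h | h
    · exfalso
      subst h
      exact hna hru.symm
    · exact h
  obtain ⟨s, hus, hrs, hs⟩ := hT (n + 1) (by omega) b u r hu dbr hru.symm
  obtain ⟨s', hrs', hus', hs'⟩ := hT (n + 1) (by omega) b r u' dbr hu' hru'
  have four : ∀ t, G.dist b t = n + 1 → G.Adj u t → G.Adj u' t → False := by
    intro t ht h1 h2
    have n1 : t ≠ v := fun e => by rw [e] at ht; omega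
    rcases h4 t u v u' h1.symm hvu.symm hvu' h2 n1 hne with h | h
    · have := adj_le (b := b) h
      omega
    · exact hna h
  rcases hQ (n + 1) (by omega) b r s s' dbr hrs hrs' hs hs' with h | h
  · subst h
    exact four s hs hus hus'
  · have n1 : s ≠ v := fun e => by rw [e] at hs; omega
    have n2 : s ≠ u' := fun e => by rw [e] at hs; omega
    have n3 : u ≠ s' := fun e => by rw [← e] at hs'; omega
    have n4 : v ≠ s' := fun e => by rw [← e] at hs'; omega
    rcases h5 s u v u' s' hus.symm hvu.symm hvu' hus' h.symm n1 n2 hne n3 n4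
      with h | h | h | h | h
    · have := adj_le (b := b) h
      omega
    · exact four s hs hus h.symm
    · exact hna h
    · exact four s' hs' h hus'
    · have := adj_le (b := b) h.symm
      omega


/-- adjacency of `u,u'` on level `n+2` -/
lemma Qstep {n : ℕ} (hB : Br G) (hQ : ∀ m, m < n + 1 → Qn G m)
    (hT : ∀ m, m < n + 1 → Tn G m) : Qn G (n + 1) := by
  have h4 := ch4_of_br hB
  have h5 := ch5_of_br hB
  intro b v u u' hv hvu hvu' hu hu'
  by_contra hcon
  have hE : ∀ x1 y1, G.Adj b x1 → G.Adj b y1 → G.dist u x1 = n → G.dist u' y1 = n →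
      (x1 = y1 ∨ G.Adj x1 y1) → False := by
    intro x1 y1 a1 a2 a3 a4 a5
    exact hcon (E h4 h5 hQ hT hv hvu hvu' hu hu' a1 a2 a3 a4 a5)
  obtain ⟨P, P0, P1, P2, Padj, Pd⟩ := geo_ext hv hvu hu
  obtain ⟨Q, Q0, Q1, Q2, Qadj, Qd⟩ := geo_ext hv hvu' hu'
  have rb : G.Reachable b v := Reachable.of_dist_ne_zero (by omega)
  have Pb : ∀ i, i ≤ n + 2 → G.dist b (P i) = i := by
    intro i hi
    have := Pd 0 i (by omega) hi
    rw [P0] at this
    omega
  have Qb : ∀ i, i ≤ n + 2 → G.dist b (Q i) = i := by
    intro i hi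
    have := Qd 0 i (by omega) hi
    rw [Q0] at this
    omega
  have Pr : ∀ i, i ≤ n + 2 → G.Reachable b (P i) := by
    intro i hi
    rcases Nat.eq_zero_or_pos i with rfl | h
    · rw [P0]
    · exact Reachable.of_dist_ne_zero (by rw [Pb i hi]; omega)
  have Qr : ∀ i, i ≤ n + 2 → G.Reachable b (Q i) := by
    intro i hi
    rcases Nat.eq_zero_or_pos i with rfl | h
    · rw [Q0]
    · exact Reachable.of_dist_ne_zero (by rw [Qb i hi]; omega)
  -- first vertices
  have hbP : G.Adj b (P 1) := by have := Padj 0 (by omega); rwa [P0] at this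
  have hbQ : G.Adj b (Q 1) := by have := Qadj 0 (by omega); rwa [Q0] at this
  have huP : G.dist u (P 1) = n := by
    have := Pd 1 (n + 1) (by omega) (by omega)
    rw [P1, dist_comm] at this
    omega
  have huQ : G.dist u' (Q 1) = n := by
    have := Qd 1 (n + 1) (by omega) (by omega)
    rw [Q1, dist_comm] at this
    omega
  have hne : ∀ i, 1 ≤ i → i ≤ n + 1 → P i ≠ Q i := by
    intro i h1 h2 he
    have e1 := Pd 1 i h1 (by omega)
    have e2 := Qd i (n + 1) h2 (by omega)
    rw [← he, Q1] at e2
    apply hE (P 1) (P 1) hbP hbP huP ?_ (Or.inl rfl)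
    have t1 := adj_le (b := u') hbP.symm
    rw [dist_comm (u := u') (v := b), dist_comm (u := u') (v := P 1)] at t1
    have t2 : G.dist (P 1) u' ≤ G.dist (P 1) (P i) + G.dist (P i) u' :=
      ((Pr 1 (by omega)).symm.trans (Pr i (by omega))).dist_triangle_left _
    rw [dist_comm]
    omega
  have hS : SCyc G (2 * n + 4) (fun i => if i ≤ n + 2 then P i else Q (2 * n + 4 - i)) := by
    constructor
    · intro i hi
      show G.Adj (if i ≤ n + 2 then P i else Q (2 * n + 4 - i))
        (if i + 1 ≤ n + 2 then P (i + 1) else Q (2 * n + 4 - (i + 1)))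
      by_cases h1 : i + 1 ≤ n + 2
      · rw [if_pos (by omega), if_pos h1]
        exact Padj i (by omega)
      · rw [if_neg h1]
        by_cases h2 : i ≤ n + 2
        · rw [if_pos h2]
          obtain rfl : i = n + 2 := by omega
          have := Qadj (n + 1) (by omega)
          rw [Q2] at this
          rw [P2, show 2 * n + 4 - (n + 2 + 1) = n + 1 by omega]
          exact this.symm
        · rw [if_neg h2]
          have := Qadj (2 * n + 4 - (i + 1)) (by omega)
          rw [show 2 * n + 4 - (i + 1) + 1 = 2 * n + 4 - i by omega] at this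
          exact this.symm
    · show G.Adj (if 2 * n + 4 - 1 ≤ n + 2 then P (2 * n + 4 - 1) else
        Q (2 * n + 4 - (2 * n + 4 - 1))) (if 0 ≤ n + 2 then P 0 else Q (2 * n + 4 - 0))
      rw [if_neg (by omega), if_pos (by omega), P0,
        show 2 * n + 4 - (2 * n + 4 - 1) = 1 by omega]
      exact hbQ.symm
    · intro i j hi hj hij
      have hij' : (if i ≤ n + 2 then P i else Q (2 * n + 4 - i)) =
        (if j ≤ n + 2 then P j else Q (2 * n + 4 - j)) := hij
      by_cases h1 : i ≤ n + 2
      · rw [if_pos h1] at hij'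
        by_cases h2 : j ≤ n + 2
        · rw [if_pos h2] at hij'
          have a1 := Pb i h1
          have a2 := Pb j h2
          rw [hij'] at a1
          omega
        · rw [if_neg h2] at hij'
          exfalso
          have a1 := Pb i h1
          have a2 := Qb (2 * n + 4 - j) (by omega)
          rw [hij'] at a1
          have a3 : i = 2 * n + 4 - j := by omega
          rw [← a3] at hij'
          exact hne i (by omega) (by omega) hij'
      · rw [if_neg h1] at hij'
        by_cases h2 : j ≤ n + 2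
        · rw [if_pos h2] at hij'
          exfalso
          have a1 := Pb j h2
          have a2 := Qb (2 * n + 4 - i) (by omega)
          rw [hij'] at a2
          have a3 : j = 2 * n + 4 - i := by omega
          rw [← a3] at hij'
          exact hne j (by omega) (by omega) hij'.symm
        · rw [if_neg h2] at hij'
          have a1 := Qb (2 * n + 4 - i) (by omega)
          have a2 := Qb (2 * n + 4 - j) (by omega)
          rw [hij'] at a1
          omega
  obtain ⟨i, j, hij, hj, hd⟩ := hB _ _ (by omega) hS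
  have hd' : G.dist (if i ≤ n + 2 then P i else Q (2 * n + 4 - i))
    (if j ≤ n + 2 then P j else Q (2 * n + 4 - j)) < min (j - i) (2 * n + 4 - (j - i)) := hd
  rw [lt_min_iff] at hd'
  obtain ⟨hd1, hd2⟩ := hd'
  by_cases h2 : j ≤ n + 2
  · rw [if_pos (by omega), if_pos h2, Pd i j hij h2] at hd1
    omega
  rw [if_neg h2] at hd1 hd2
  obtain ⟨k, hk⟩ : ∃ k, k = 2 * n + 4 - j := ⟨_, rfl⟩
  rw [← hk] at hd1 hd2
  by_cases h1 : n + 2 ≤ i
  · have : (if i ≤ n + 2 then P i else Q (2 * n + 4 - i)) = Q (2 * n + 4 - i) := by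
      by_cases h3 : i ≤ n + 2
      · obtain rfl : i = n + 2 := by omega
        rw [if_pos h3, P2, show 2 * n + 4 - (n + 2) = n + 2 by omega, Q2]
      · rw [if_neg h3]
    rw [this, dist_comm, Qd k (2 * n + 4 - i) (by omega) (by omega)] at hd1
    omega
  rw [if_pos (by omega)] at hd1 hd2
  rcases Nat.eq_zero_or_pos i with rfl | hi
  · rw [P0, ← Q0, Qd 0 k (by omega) (by omega)] at hd2
    omega
  have hPv : ∀ i, i ≤ n + 2 → G.dist v (P i) = n + 2 - i := by
    intro i hi
    rw [← P2, dist_comm]
    exact Pd i (n + 2) hi (le_refl _)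
  have hQv : ∀ i, i ≤ n + 2 → G.dist v (Q i) = n + 2 - i := by
    intro i hi
    rw [← Q2, dist_comm]
    exact Qd i (n + 2) hi (le_refl _)
  by_cases hs : i + k ≤ n + 2
  · obtain ⟨x1, y1, a1, a2, a3, a4, a5⟩ := Sc hQ hT (i + k) i k rfl hi (by omega) (by omega) b (P i)
      (Q k) (Pr i (by omega)) (Qr k (by omega)) (Pb i (by omega)) (Qb k (by omega)) (by omega)
    refine hE x1 y1 a1 a2 ?_ ?_ a5
    · have e1 := Pd i (n + 1) (by omega) (by omega)
      rw [P1, dist_comm] at e1
      have e2 : G.dist u x1 ≤ G.dist u (P i) + G.dist (P i) x1 := by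
        have : G.Reachable u (P i) := by
          rw [← P1]; exact (Pr _ (by omega)).symm.trans (Pr i (by omega))
        exact this.dist_triangle_left _
      have e3 := adj_le (b := u) a1.symm
      rw [dist_comm (u := u) (v := b)] at e3
      omega
    · have e1 := Qd k (n + 1) (by omega) (by omega)
      rw [Q1, dist_comm] at e1
      have e2 : G.dist u' y1 ≤ G.dist u' (Q k) + G.dist (Q k) y1 := by
        have : G.Reachable u' (Q k) := by
          rw [← Q1]; exact (Qr _ (by omega)).symm.trans (Qr k (by omega))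
        exact this.dist_triangle_left _
      have e3 := adj_le (b := u') a2.symm
      rw [dist_comm (u := u') (v := b)] at e3
      omega
  · obtain ⟨x1, y1, a1, a2, a3, a4, a5⟩ := Sc hQ hT (2 * n + 4 - i - k) (n + 2 - i) (n + 2 - k)
      (by omega) (by omega) (by omega) (by omega) v (P i)
      (Q k) (rb.symm.trans (Pr i (by omega))) (rb.symm.trans (Qr k (by omega)))
      (hPv i (by omega)) (hQv k (by omega)) (by omega)
    have hPQ : P 1 = Q 1 ∨ G.Adj (P 1) (Q 1) := by
      refine E h4 h5 hQ hT (b := v) (v := b) (x1 := x1) (y1 := y1) (by rw [dist_comm]; exact hv)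
        hbP hbQ ?_ ?_ a1 a2 ?_ ?_ a5
      · rw [hPv 1 (by omega)]; omega
      · rw [hQv 1 (by omega)]; omega
      · have e1 := Pd 1 i (by omega) (by omega)
        have e2 : G.dist (P 1) x1 ≤ G.dist (P 1) (P i) + G.dist (P i) x1 :=
          ((Pr 1 (by omega)).symm.trans (Pr i (by omega))).dist_triangle_left _
        have e3 := adj_le (b := P 1) a1.symm
        have e4 := hPv 1 (by omega)
        rw [dist_comm (u := P 1) (v := v)] at e3
        omega
      · have e1 := Qd 1 k (by omega) (by omega)
        have e2 : G.dist (Q 1) y1 ≤ G.dist (Q 1) (Q k) + G.dist (Q k) y1 :=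
          ((Qr 1 (by omega)).symm.trans (Qr k (by omega))).dist_triangle_left _
        have e3 := adj_le (b := Q 1) a2.symm
        have e4 := hQv 1 (by omega)
        rw [dist_comm (u := Q 1) (v := v)] at e3
        omega
    exact hE (P 1) (Q 1) hbP hbQ huP huQ hPQ

end Pool.Agent.MP_1b70d9_co
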