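import Pool.Agent.Lib.MP_1b70d9_co.QT

set_option autoImplicit false
set_option maxHeartbeats 4000000

namespace Pool.Agent.MP_1b70d9_co

open SimpleGraph

universe u

variable {V : Type u} {G : SimpleGraph V}

lemma ET {n : ℕ} (hQ : ∀ m, m < n + 2 → Qn G m)
    (hT : ∀ m, m < n + 1 → Tn G m) {b v v' : V}
    (hv : G.dist b v = n + 2) (hv' : G.dist b v' = n + 2) (hvv : G.Adj v v') {x1 y1 : V}
    (hx : G.Adj b x1) (hy : G.Adj b y1)
    (hvx : G.dist v x1 = n + 1) (hvy : G.dist v' y1 = n + 1) (hxy : x1 = y1 ∨ G.Adj x1 y1) :
    ∃ w, G.Adj v w ∧ G.Adj v' w ∧ G.dist b w = n + 1 := by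
  have same : ∀ x, G.Adj b x → G.dist v x = n + 1 → G.dist v' x = n + 1 →
      ∃ w, G.Adj v w ∧ G.Adj v' w ∧ G.dist b w = n + 1 := by
    intro x h1 h2 h3
    obtain ⟨w, hw1, hw2, hw3⟩ := hT n (by omega) x v v' (by rw [dist_comm]; exact h2)
      (by rw [dist_comm]; exact h3) hvv
    refine ⟨w, hw1, hw2, ?_⟩
    have a1 := adj_le (b := b) hw1.symm
    have a2 := h1.reachable.dist_triangle_left w
    have a3 : G.dist b x = 1 := dist_eq_one_iff_adj.2 h1
    omega
  rcases hxy with rfl | hxy
  · exact same x1 hx hvx hvy
  have b1 := adj_le (b := v) hxy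
  have b2 := adj_le (b := v) hy.symm
  rw [dist_comm (u := v) (v := b)] at b2
  have hD : G.dist v y1 = n + 1 ∨ G.dist v y1 = n + 2 := by omega
  rcases hD with hD | hD
  · exact same y1 hy hD hvy
  obtain ⟨z, hz1, hz2⟩ := nb (G := G) (x := v') (y := y1) (n := n) hvy
  have rb : G.Reachable b v := Reachable.of_dist_ne_zero (by omega)
  have rz : G.Reachable b z := hy.reachable.trans hz1.reachable
  have dz : G.dist v z = n + 1 := by
    have a1 := hvv.reachable.dist_triangle_left z
    have a2 : G.dist v v' = 1 := dist_eq_one_iff_adj.2 hvv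
    have a3 := adj_le (b := v) hz1.symm
    omega
  have dbz : 2 ≤ G.dist b z := by
    have a1 := rz.dist_triangle_left v'
    rw [dist_comm (u := z) (v := v')] at a1
    omega
  rcases hQ (n + 1) (by omega) v y1 x1 z hD hxy.symm hz1 hvx dz with h | h
  · exfalso
    rw [← h, dist_eq_one_iff_adj.2 hx] at dbz
    omega
  · apply same x1 hx hvx
    have a1 := adj_le (b := v') h.symm
    have a2 := adj_le (b := v') hx.symm
    rw [dist_comm (u := v') (v := b)] at a2
    omega

lemma U {n : ℕ} (h4 : Ch4 G) (hQ : ∀ m, m < n + 2 → Qn G m)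
    (hT : ∀ m, m < n + 1 → Tn G m) {b : V} (s : ℕ) :
    ∀ (i j : ℕ), i + j = s → s ≤ n + 1 → ∀ (x y v v' : V), G.dist b v = n + 2 →
      G.dist b v' = n + 2 → G.Adj v v' → G.dist x v = i → G.Reachable b x →
      G.dist b x + i = n + 2 → G.dist y v' = j → G.Reachable b y → G.dist b y + j = n + 2 →
      G.dist x y ≤ i + j → ∃ w, G.Adj v w ∧ G.Adj v' w ∧ G.dist b w = n + 1 := by
  induction s with
  | zero =>
    intro i j hs hn x y v v' hv hv' hvv hx rx hbx hy ry hby hxy
    exfalso
    obtain rfl : i = 0 := by omega
    obtain rfl : j = 0 := by omega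
    have rv : G.Reachable b v := Reachable.of_dist_ne_zero (by omega)
    have rv' : G.Reachable b v' := Reachable.of_dist_ne_zero (by omega)
    have e1 : x = v := ((rx.symm.trans rv).dist_eq_zero_iff).1 hx
    have e2 : y = v' := ((ry.symm.trans rv').dist_eq_zero_iff).1 hy
    rw [e1, e2, dist_eq_one_iff_adj.2 hvv] at hxy
    omega
  | succ s ih =>
    have key : ∀ (i j : ℕ), i + j = s + 1 → s + 1 ≤ n + 1 → 1 ≤ j → ∀ (x y v v' : V),
      G.dist b v = n + 2 →
      G.dist b v' = n + 2 → G.Adj v v' → G.dist x v = i → G.Reachable b x →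
      G.dist b x + i = n + 2 → G.dist y v' = j → G.Reachable b y → G.dist b y + j = n + 2 →
      G.dist x y ≤ i + j → ∃ w, G.Adj v w ∧ G.Adj v' w ∧ G.dist b w = n + 1 := by
      intro i j hs hn hj x y v v' hv hv' hvv hx rx hbx hy ry hby hxy
      obtain ⟨j, rfl⟩ : ∃ j', j = j' + 1 := ⟨j - 1, by omega⟩
      have rv : G.Reachable b v := Reachable.of_dist_ne_zero (by omega)
      have rv' : G.Reachable b v' := Reachable.of_dist_ne_zero (by omega)
      obtain ⟨yp, hyp1, hyp2⟩ := nb (G := G) (x := v') (y := y) (n := j) (by rw [dist_comm]; exact hy)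
      have rp : G.Reachable b yp := ry.trans hyp1.reachable
      have hbyp : G.dist b yp + j = n + 2 := by
        have a1 := adj_le (b := b) hyp1
        have a2 := rp.dist_triangle_left v'
        rw [dist_comm (u := yp) (v := v')] at a2
        omega
      by_cases hc : G.dist x yp ≤ i + j
      · exact ih i j (by omega) (by omega) x yp v v' hv hv' hvv hx rx hbx
          (by rw [dist_comm]; exact hyp2) rp hbyp hc
      have hxyp : G.dist x yp = i + j + 1 := by
        have a1 : G.dist x yp ≤ G.dist x v + G.dist v yp := (rx.symm.trans rv).dist_triangle_left _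
        have a2 : G.dist v yp ≤ G.dist v v' + G.dist v' yp := hvv.reachable.dist_triangle_left _
        have a3 : G.dist v v' = 1 := dist_eq_one_iff_adj.2 hvv
        omega
      have hD1 := adj_le (b := x) hyp1
      have hD : G.dist x y = i + j ∨ G.dist x y = i + j + 1 := by omega
      rcases j with _ | j
      · -- yp = v', z = v
        have e : yp = v' := ((rp.symm.trans rv').dist_eq_zero_iff).1 (by rw [dist_comm]; exact hyp2)
        subst e
        have fin : G.Adj v y → ∃ w, G.Adj v w ∧ G.Adj yp w ∧ G.dist b w = n + 1 := by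
          intro h
          exact ⟨y, h, hyp1.symm, by omega⟩
        rcases hD with hD | hD
        · rcases hQ i (by omega) x yp y v (by omega) hyp1.symm hvv.symm (by omega) hx with h | h
          · exfalso; rw [h] at hby; omega
          · exact fin h.symm
        · obtain ⟨w, hw1, hw2, hw3⟩ := hT i (by omega) x y yp (by omega) (by omega) hyp1
          rcases hQ i (by omega) x yp w v (by omega) hw2 hvv.symm hw3 hx with h | h
          · rw [h] at hw1
            exact fin hw1.symm
          · have c1 := adj_le (b := b) hw1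
            have rw' : G.Reachable b w := ry.trans hw1.reachable
            have c2 : G.dist b w ≤ G.dist b x + G.dist x w := rx.dist_triangle_left _
            have c3 := adj_le (b := b) hw2.symm
            have hD2 : G.dist b w = n + 1 ∨ G.dist b w = n + 2 := by omega
            rcases hD2 with hD2 | hD2
            · exact ⟨w, h.symm, hw2, hD2⟩
            rcases i with _ | i
            · have e1 : x = v := ((rx.symm.trans rv).dist_eq_zero_iff).1 hx
              have e2 : x = w := ((rx.symm.trans rw').dist_eq_zero_iff).1 hw3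
              rw [← e2, e1] at hw1
              exact fin hw1.symm
            · obtain ⟨t, ht1, ht2, ht3⟩ := hT i (by omega) x w v hw3 hx h
              have rt : G.Reachable b t := rw'.trans ht1.reachable
              have hbt : G.dist b t = n + 1 := by
                have d1 : G.dist b t ≤ G.dist b x + G.dist x t := rx.dist_triangle_left _
                have d2 := adj_le (b := b) ht2.symm
                omega
              rcases hQ (n + 1) (by omega) b w t y (by omega) ht1 hw1.symm hbt (by omega) with h' | h'
              · rw [h'] at ht2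
                exact fin ht2
              · have n1 : v ≠ y := fun e => by rw [e] at hv; omega
                have n2 : t ≠ yp := fun e => by rw [e] at hbt; omega
                rcases h4 v t y yp ht2 h' hyp1 hvv.symm n1 n2 with h'' | h''
                · exact fin h''
                · exact ⟨t, ht2, h''.symm, hbt⟩
      · obtain ⟨z, hz1, hz2⟩ := nb (G := G) (x := v') (y := yp) (n := j) hyp2
        have rz : G.Reachable b z := rp.trans hz1.reachable
        have hxz : G.dist x z = i + j + 1 := by
          have a1 : G.dist x z ≤ G.dist x v + G.dist v z := (rx.symm.trans rv).dist_triangle_left _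
          have a2 : G.dist v z ≤ G.dist v v' + G.dist v' z := hvv.reachable.dist_triangle_left _
          have a3 : G.dist v v' = 1 := dist_eq_one_iff_adj.2 hvv
          have a4 := adj_le (b := x) hz1.symm
          omega
        rcases hD with hD | hD
        · exfalso
          rcases hQ (i + j + 1) (by omega) x yp y z (by omega) hyp1.symm hz1 (by omega) hxz with h | h
          · rw [h, dist_comm] at hy; omega
          · have a1 := adj_le (b := v') h.symm
            rw [dist_comm (u := v') (v := y)] at a1
            omega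
        · obtain ⟨w, hw1, hw2, hw3⟩ := hT (i + j + 1) (by omega) x y yp (by omega) (by omega) hyp1
          rcases hQ (i + j + 1) (by omega) x yp w z (by omega) hw2 hz1 hw3 hxz with h | h
          · exfalso
            rw [h] at hw1
            have a1 := adj_le (b := v') hw1.symm
            rw [dist_comm (u := v') (v := y)] at a1
            omega
          · have rw' : G.Reachable b w := ry.trans hw1.reachable
            have a1 := adj_le (b := v') h.symm
            have a2 := adj_le (b := v') hw1.symm
            rw [dist_comm (u := v') (v := y)] at a2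
            have a3 : G.dist v' w = j + 1 := by omega
            have a4 := adj_le (b := b) hw1
            have a5 := rw'.dist_triangle_left v'
            rw [dist_comm (u := w) (v := v')] at a5
            exact ih i (j + 1) (by omega) (by omega) x w v v' hv hv' hvv hx rx hbx
              (by rw [dist_comm]; exact a3) rw' (by omega) (by omega)
    intro i j hs hn x y v v' hv hv' hvv hx rx hbx hy ry hby hxy
    by_cases hj : 1 ≤ j
    · exact key i j hs hn hj x y v v' hv hv' hvv hx rx hbx hy ry hby hxy
    · obtain ⟨w, h1, h2, h3⟩ := key j i (by omega) hn (by omega) y x v' v hv' hv hvv.symm hy ry hby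
        hx rx hbx (by rw [dist_comm]; omega)
      exact ⟨w, h2, h1, h3⟩


lemma Tstep {n : ℕ} (hB : Br G) (hQ : ∀ m, m < n + 2 → Qn G m)
    (hT : ∀ m, m < n + 1 → Tn G m) : Tn G (n + 1) := by
  have h4 := ch4_of_br hB
  intro b v v' hv hv' hvv
  by_contra hcon
  have hE : ∀ x1 y1, G.Adj b x1 → G.Adj b y1 → G.dist v x1 = n + 1 → G.dist v' y1 = n + 1 →
      (x1 = y1 ∨ G.Adj x1 y1) → False := by
    intro x1 y1 a1 a2 a3 a4 a5
    exact hcon (ET hQ hT hv hv' hvv a1 a2 a3 a4 a5)
  have rb : G.Reachable b v := Reachable.of_dist_ne_zero (by omega)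
  have rb' : G.Reachable b v' := Reachable.of_dist_ne_zero (by omega)
  obtain ⟨P, P0, P1, Padj, Pd, Prr⟩ := geo rb hv
  obtain ⟨Q, Q0, Q1, Qadj, Qd, Qrr⟩ := geo rb' hv'
  have Pb : ∀ i, i ≤ n + 2 → G.dist b (P i) = i := by
    intro i hi
    have := Pd 0 i (by omega) hi
    rw [P0] at this
    omega
  have Qb : ∀ i, i ≤ n + 2 → G.dist b (Q i) = i := by
    intro i hi
    have := Qd 0 i (by omega) hi
    rw [Q0] at this
    omega
  have Pr : ∀ i, i ≤ n + 2 → G.Reachable b (P i) := by
    intro i hi
    have := Prr 0 i (by omega) hi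
    rwa [P0] at this
  have Qr : ∀ i, i ≤ n + 2 → G.Reachable b (Q i) := by
    intro i hi
    have := Qrr 0 i (by omega) hi
    rwa [Q0] at this
  have hbP : G.Adj b (P 1) := by have := Padj 0 (by omega); rwa [P0] at this
  have hbQ : G.Adj b (Q 1) := by have := Qadj 0 (by omega); rwa [Q0] at this
  have huP : G.dist v (P 1) = n + 1 := by
    have := Pd 1 (n + 2) (by omega) (by omega)
    rw [P1, dist_comm] at this
    omega
  have huQ : G.dist v' (Q 1) = n + 1 := by
    have := Qd 1 (n + 2) (by omega) (by omega)
    rw [Q1, dist_comm] at this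
    omega
  have hne : ∀ i, 1 ≤ i → i ≤ n + 2 → P i ≠ Q i := by
    intro i h1 h2 he
    have e1 := Pd 1 i h1 (by omega)
    have e2 := Qd i (n + 2) h2 (by omega)
    rw [← he, Q1] at e2
    apply hE (P 1) (P 1) hbP hbP huP ?_ (Or.inl rfl)
    have t1 := adj_le (b := v') hbP.symm
    rw [dist_comm (u := v') (v := b), dist_comm (u := v') (v := P 1)] at t1
    have t2 : G.dist (P 1) v' ≤ G.dist (P 1) (P i) + G.dist (P i) v' :=
      ((Pr 1 (by omega)).symm.trans (Pr i (by omega))).dist_triangle_left _
    rw [dist_comm]
    omega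
  have hS : SCyc G (2 * n + 5) (fun i => if i ≤ n + 2 then P i else Q (2 * n + 5 - i)) := by
    constructor
    · intro i hi
      show G.Adj (if i ≤ n + 2 then P i else Q (2 * n + 5 - i))
        (if i + 1 ≤ n + 2 then P (i + 1) else Q (2 * n + 5 - (i + 1)))
      by_cases h1 : i + 1 ≤ n + 2
      · rw [if_pos (by omega), if_pos h1]
        exact Padj i (by omega)
      · rw [if_neg h1]
        by_cases h2 : i ≤ n + 2
        · rw [if_pos h2]
          obtain rfl : i = n + 2 := by omega
          rw [P1, show 2 * n + 5 - (n + 2 + 1) = n + 2 by omega, Q1]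
          exact hvv
        · rw [if_neg h2]
          have := Qadj (2 * n + 5 - (i + 1)) (by omega)
          rw [show 2 * n + 5 - (i + 1) + 1 = 2 * n + 5 - i by omega] at this
          exact this.symm
    · show G.Adj (if 2 * n + 5 - 1 ≤ n + 2 then P (2 * n + 5 - 1) else
        Q (2 * n + 5 - (2 * n + 5 - 1))) (if 0 ≤ n + 2 then P 0 else Q (2 * n + 5 - 0))
      rw [if_neg (by omega), if_pos (by omega), P0,
        show 2 * n + 5 - (2 * n + 5 - 1) = 1 by omega]
      exact hbQ.symm
    · intro i j hi hj hij
      have hij' : (if i ≤ n + 2 then P i else Q (2 * n + 5 - i)) =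
        (if j ≤ n + 2 then P j else Q (2 * n + 5 - j)) := hij
      by_cases h1 : i ≤ n + 2
      · rw [if_pos h1] at hij'
        by_cases h2 : j ≤ n + 2
        · rw [if_pos h2] at hij'
          have a1 := Pb i h1
          have a2 := Pb j h2
          rw [hij'] at a1
          omega
        · rw [if_neg h2] at hij'
          exfalso
          have a1 := Pb i h1
          have a2 := Qb (2 * n + 5 - j) (by omega)
          rw [hij'] at a1
          have a3 : i = 2 * n + 5 - j := by omega
          rw [← a3] at hij'
          exact hne i (by omega) (by omega) hij'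
      · rw [if_neg h1] at hij'
        by_cases h2 : j ≤ n + 2
        · rw [if_pos h2] at hij'
          exfalso
          have a1 := Pb j h2
          have a2 := Qb (2 * n + 5 - i) (by omega)
          rw [hij'] at a2
          have a3 : j = 2 * n + 5 - i := by omega
          rw [← a3] at hij'
          exact hne j (by omega) (by omega) hij'.symm
        · rw [if_neg h2] at hij'
          have a1 := Qb (2 * n + 5 - i) (by omega)
          have a2 := Qb (2 * n + 5 - j) (by omega)
          rw [hij'] at a1
          omega
  obtain ⟨i, j, hij, hj, hd⟩ := hB _ _ (by omega) hS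
  have hd' : G.dist (if i ≤ n + 2 then P i else Q (2 * n + 5 - i))
    (if j ≤ n + 2 then P j else Q (2 * n + 5 - j)) < min (j - i) (2 * n + 5 - (j - i)) := hd
  rw [lt_min_iff] at hd'
  obtain ⟨hd1, hd2⟩ := hd'
  by_cases h2 : j ≤ n + 2
  · rw [if_pos (by omega), if_pos h2, Pd i j hij h2] at hd1
    omega
  rw [if_neg h2] at hd1 hd2
  obtain ⟨k, hk⟩ : ∃ k, k = 2 * n + 5 - j := ⟨_, rfl⟩
  rw [← hk] at hd1 hd2
  by_cases h1 : n + 3 ≤ i
  · rw [if_neg (by omega), dist_comm, Qd k (2 * n + 5 - i) (by omega) (by omega)] at hd1
    omega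
  rw [if_pos (by omega)] at hd1 hd2
  rcases Nat.eq_zero_or_pos i with rfl | hi
  · rw [P0, ← Q0, Qd 0 k (by omega) (by omega)] at hd2
    omega
  by_cases hs : i + k ≤ n + 2
  · obtain ⟨x1, y1, a1, a2, a3, a4, a5⟩ := Sc (n := n + 1) (fun m hm => hQ m (by omega)) hT
      (i + k) i k rfl hi (by omega) (by omega) b (P i)
      (Q k) (Pr i (by omega)) (Qr k (by omega)) (Pb i (by omega)) (Qb k (by omega)) (by omega)
    refine hE x1 y1 a1 a2 ?_ ?_ a5
    · have e1 := Pd i (n + 2) (by omega) (by omega)
      rw [P1, dist_comm] at e1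
      have e2 : G.dist v x1 ≤ G.dist v (P i) + G.dist (P i) x1 := by
        have : G.Reachable v (P i) := rb.symm.trans (Pr i (by omega))
        exact this.dist_triangle_left _
      have e3 := adj_le (b := v) a1.symm
      rw [dist_comm (u := v) (v := b)] at e3
      omega
    · have e1 := Qd k (n + 2) (by omega) (by omega)
      rw [Q1, dist_comm] at e1
      have e2 : G.dist v' y1 ≤ G.dist v' (Q k) + G.dist (Q k) y1 := by
        have : G.Reachable v' (Q k) := rb'.symm.trans (Qr k (by omega))
        exact this.dist_triangle_left _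
      have e3 := adj_le (b := v') a2.symm
      rw [dist_comm (u := v') (v := b)] at e3
      omega
  · apply hcon
    have e1 := Pd i (n + 2) (by omega) (by omega)
    rw [P1] at e1
    have e2 := Qd k (n + 2) (by omega) (by omega)
    rw [Q1] at e2
    have e3 := Pb i (by omega)
    have e4 := Qb k (by omega)
    exact U h4 hQ hT (2 * n + 4 - i - k) (n + 2 - i) (n + 2 - k) (by omega) (by omega) (P i) (Q k)
      v v' hv hv' hvv e1 (Pr i (by omega)) (by omega) e2 (Qr k (by omega)) (by omega) (by omega)

theorem QT (hB : Br G) (n : ℕ) : Qn G n ∧ Tn G n := by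
  induction n using Nat.strong_induction_on with
  | _ n ih =>
    rcases n with _ | n
    · constructor
      · intro b v u u' hv hvu hvu' hu hu'
        have rb : G.Reachable b v := Reachable.of_dist_ne_zero (by omega)
        have e1 : b = u := ((rb.trans hvu.reachable).dist_eq_zero_iff).1 hu
        have e2 : b = u' := ((rb.trans hvu'.reachable).dist_eq_zero_iff).1 hu'
        exact Or.inl (e1.symm.trans e2)
      · intro b v v' hv hv' hvv
        exact ⟨b, (dist_eq_one_iff_adj.1 hv).symm, (dist_eq_one_iff_adj.1 hv').symm, by simp⟩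
    · have q := Qstep hB (fun m hm => (ih m hm).1) (fun m hm => (ih m hm).2)
      refine ⟨q, Tstep hB ?_ (fun m hm => (ih m hm).2)⟩
      intro m hm
      by_cases h : m = n + 1
      · subst h; exact q
      · exact (ih m (by omega)).1

end Pool.Agent.MP_1b70d9_co
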